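import Pool.Agent.R460.GR.Both

/-!
# Sums of two distinct odd primes: almost all even numbers in the residue classes of EVERY modulus up to
`x ^ (7 / 10 - ρ)`, with many representations in every window

For every modulus `q ≤ x ^ (7 / 10 - ρ)` and every residue class `a` modulo `q` such that the greatest common
divisor of `a` and `q` is at most a fixed power of `log x`, all but at most `x / (q (log x) ^ A)` of the even
integers `n ≤ x`, `n ≡ a (mod q)`, are sums `p + p'` of two distinct odd primes; more precisely, every window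
`(y₁, y₂] ⊆ (0, n]` of length at least `n / (log n) ^ W` contains at least `1 / 21` of the number of primes `p`
with `n - p` prime which Hardy and Littlewood predict, with `p ≠ n - p` both odd primes. The same holds for EVERY
residue class (for instance for the multiples of `q`), if `q` is not divisible by a member of a set `D` of at most
`(log x) ^ c` integers, all of them larger than any given power of `log x`.

Definitions used: `sing n = 2 C₂ ∏_{p ∣ n, p > 2} (p - 1) / (p - 2)` with `C₂ = ∏_{p > 2} (1 - 1 / (p - 1) ^ 2)`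
(in `Pool.Agent.H560R3.GB`).

Proof (`R460/GS`, `R460/GR`). Let `G` be `log N` times the indicator function of the integers without prime factors
up to `N ^ (3 / 10)`. Then `Λ(m) Λ(n) ≥ Λ(m) G(n) + G(m) Λ(n) - G(m) G(n)` up to prime powers, and the mean value
`w` of `G` satisfies `2 w - w ^ 2 > 1 / 20`. The difference of `G` and a sieve model is a bilinear sum with
flexible lengths; so its sum over the characters modulo `q` is small in mean square, for all but few characters near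
the fractions with small denominators, and for all characters elsewhere, if `q ≤ N ^ (7 / 10 - ρ)`.
-/

set_option autoImplicit false

namespace Pool.Agent.Results.MP_61161c_nt.EveryModulusSevenTenths

open Finset
open Pool.Agent.H560R3.GB (sing)
open Pool.Agent.W93.PG (cnt)
open Pool.Agent.R460.GS (WinL one_le_sing)
open Pool.Agent.Y614.GJ.Core (ev_log)

/-- The number of the odd primes `p` with `y₁ < p ≤ y₂` such that `n - p` is an odd prime different from `p`. -/
def reps (n y₁ y₂ : ℕ) : ℕ :=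
  ((Ioc y₁ y₂).filter (fun p => p.Prime ∧ (n - p).Prime ∧ p ≠ 2 ∧ n - p ≠ 2 ∧ p ≠ n - p)).card

/-- `n` is the sum of two distinct odd primes, and every window `(y₁, y₂] ⊆ (0, n]` of length at least
`n / (log n) ^ W` contains at least `1 / 21` of the number of such representations `n = p + p'`, `y₁ < p ≤ y₂`,
which Hardy and Littlewood predict. -/
def Good (W n : ℕ) : Prop :=
  (∃ p p' : ℕ, p.Prime ∧ p'.Prime ∧ p ≠ 2 ∧ p' ≠ 2 ∧ p ≠ p' ∧ n = p + p') ∧
  ∀ y₁ y₂ : ℕ, y₁ < y₂ → y₂ ≤ n → (n : ℝ) / Real.log n ^ W ≤ (y₂ : ℝ) - y₁ →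
    1 / 21 * (sing n * ((y₂ : ℝ) - y₁) / Real.log n ^ 2) ≤ (reps n y₁ y₂ : ℝ)

/-- The even integers `n ≡ a (mod q)` with `0 < n ≤ x` for which `Good W n` fails. -/
def exceptional (W : ℕ) (x : ℝ) (q : ℕ) (a : ℤ) : Set ℕ :=
  {n : ℕ | 0 < n ∧ (n : ℝ) ≤ x ∧ 2 ∣ n ∧ (n : ℤ) ≡ a [ZMOD q] ∧ ¬ Good W n}

lemma cnt_le (n y₁ y₂ : ℕ) : cnt n y₁ y₂ ≤ reps n y₁ y₂ + 3 := by
  unfold cnt reps
  have h : (Ioc y₁ y₂).filter (fun p => p.Prime ∧ (n - p).Prime) ⊆
      (Ioc y₁ y₂).filter (fun p => p.Prime ∧ (n - p).Prime ∧ p ≠ 2 ∧ n - p ≠ 2 ∧ p ≠ n - p) ∪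
        {2, n - 2, n / 2} := by
    intro p hp
    rw [mem_filter] at hp
    rw [mem_union, mem_filter, mem_insert, mem_insert, mem_singleton]
    obtain ⟨h1, h2, h3⟩ := hp
    have h4 := h3.two_le
    by_cases c1 : p = 2
    · exact Or.inr (Or.inl c1)
    by_cases c2 : n - p = 2
    · exact Or.inr (Or.inr (Or.inl (by omega)))
    by_cases c3 : p = n - p
    · exact Or.inr (Or.inr (Or.inr (by omega)))
    · exact Or.inl ⟨h1, h2, h3, c1, c2, c3⟩
  refine (card_le_card h).trans ((card_union_le _ _).trans ?_)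
  have : ({2, n - 2, n / 2} : Finset ℕ).card ≤ 3 := card_le_three
  omega

lemma good_of (W : ℕ) : ∃ n₀ : ℕ, ∀ n : ℕ, n₀ ≤ n → 2 ∣ n → WinL W n → Good W n := by
  obtain ⟨n₁, h1⟩ := Filter.eventually_atTop.1 (ev_log (W + 3) (s := 1) (by norm_num) 1300)
  refine ⟨n₁ + 3, fun n hn _ hw => ?_⟩
  obtain ⟨hL, hLp⟩ := h1 n (by omega)
  rw [Real.rpow_one] at hLp
  obtain ⟨L, hLd⟩ : ∃ L, L = Real.log (n : ℝ) := ⟨_, rfl⟩
  have hS := one_le_sing n
  have key : ∀ y₁ y₂ : ℕ, y₁ < y₂ → y₂ ≤ n → (n : ℝ) / Real.log n ^ W ≤ (y₂ : ℝ) - y₁ →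
      3 + 1 / 21 * (sing n * ((y₂ : ℝ) - y₁) / Real.log n ^ 2) ≤
        1 / 20 * (sing n * ((y₂ : ℝ) - y₁) / Real.log n ^ 2) := by
    intro y₁ y₂ h12 h2 hlen
    rw [← hLd] at hL hLp hlen ⊢
    have hL0 : 0 < L := by linarith
    have e1 : L ≤ ((y₂ : ℝ) - y₁) / L ^ 2 := by
      rw [le_div_iff₀ (by positivity)]
      refine le_trans ?_ hlen
      rw [le_div_iff₀ (by positivity)]
      calc L * L ^ 2 * L ^ W = L ^ (W + 3) := by ring
        _ ≤ n := hLp
    have e2 : L ≤ sing n * (((y₂ : ℝ) - y₁) / L ^ 2) := by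
      have : 0 ≤ ((y₂ : ℝ) - y₁) / L ^ 2 := hL0.le.trans e1
      nlinarith
    rw [mul_div_assoc]
    linarith
  have hwin : ∀ y₁ y₂ : ℕ, y₁ < y₂ → y₂ ≤ n → (n : ℝ) / Real.log n ^ W ≤ (y₂ : ℝ) - y₁ →
      1 / 21 * (sing n * ((y₂ : ℝ) - y₁) / Real.log n ^ 2) ≤ (reps n y₁ y₂ : ℝ) := by
    intro y₁ y₂ h12 h2 hlen
    have e1 := hw y₁ y₂ h12 h2 hlen
    have e2 := key y₁ y₂ h12 h2 hlen
    have e3 : (cnt n y₁ y₂ : ℝ) ≤ reps n y₁ y₂ + 3 := by exact_mod_cast cnt_le n y₁ y₂
    linarith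
  refine ⟨?_, hwin⟩
  have h5 := hwin 0 n (by omega) le_rfl (by
    rw [Nat.cast_zero, sub_zero]
    exact div_le_self (Nat.cast_nonneg _) (one_le_pow₀ (by linarith)))
  have hn0 : (0 : ℝ) < n := by exact_mod_cast (show 0 < n by omega)
  have h6 : 0 < reps n 0 n := by
    have : (0 : ℝ) < (reps n 0 n : ℝ) := by
      refine lt_of_lt_of_le ?_ h5
      rw [Nat.cast_zero, sub_zero]
      have : 0 < Real.log n := by linarith
      positivity
    exact_mod_cast this
  unfold reps at h6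
  obtain ⟨p, hp⟩ := card_pos.1 h6
  rw [mem_filter, mem_Ioc] at hp
  exact ⟨p, n - p, hp.2.1, hp.2.2.1, hp.2.2.2.1, hp.2.2.2.2.1, hp.2.2.2.2.2, by omega⟩

/-- For all `ρ > 0`, `A`, `T` and `W` there is `c` such that for all `B` and all sufficiently large real `x` there is
a finite set `D` of at most `(log x) ^ c` integers, all of them larger than `(log x) ^ B`, such that for every
integer `1 ≤ q ≤ x ^ (7 / 10 - ρ)` and every integer `a` such that `gcd (a, q) ≤ (log x) ^ T` or `q` is not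
divisible by a member of `D`, all but at most `x / (q (log x) ^ A)` of the even integers `0 < n ≤ x`,
`n ≡ a (mod q)`, are sums of two distinct odd primes, and every window `(y₁, y₂] ⊆ (0, n]` of length at least
`n / (log n) ^ W` contains at least `1 / 21` of the predicted number of the representations. -/
theorem result (ρ : ℝ) (hρ : 0 < ρ) (A T W : ℕ) :
    ∃ c : ℕ, ∀ B : ℕ, ∃ x₀ : ℝ, ∀ x : ℝ, x₀ ≤ x → ∃ D : Finset ℕ, (D.card : ℝ) ≤ Real.log x ^ c ∧
      (∀ d ∈ D, Real.log x ^ B < (d : ℝ)) ∧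
      ∀ q : ℕ, 1 ≤ q → (q : ℝ) ≤ x ^ (7 / 10 - ρ) → ∀ a : ℤ,
        ((Int.gcd a q : ℝ) ≤ Real.log x ^ T ∨ ∀ d ∈ D, ¬ d ∣ q) →
          (exceptional W x q a).Finite ∧ ((exceptional W x q a).ncard : ℝ) ≤ x / (q * Real.log x ^ A) :=
  Pool.Agent.R460.GR.class_few_both (Good W) W (good_of W) ρ hρ A T

end Pool.Agent.Results.MP_61161c_nt.EveryModulusSevenTenths
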