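import Pool.Agent.R459.Fams
import Pool.Agent.Results.MP_61161c_nt.DigitPermutations

/-!
# Sums of two distinct and almost equal odd primes, for all even integers near almost all palindromes, random integers
with mirror-dependent digits, and rearrangements of digits

Definitions used:
* in `Pool.Agent.H560R3.GB`: `sing m`: the singular series `2 C₂ ∏_{p ∣ m, p > 2} (p - 1) / (p - 2)`, where
  `C₂ = ∏_{p > 2} (1 - 1 / (p - 1) ^ 2)`;
* in `Pool.Agent.R459.Fams`: `Digits b k U κ c η P`: almost all the integers `c + κ v` have the property `P`, up to a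
  proportion of at most `1 / k ^ U`, if `v` runs through the palindromes with `k` digits in base `b`, or is random with
  independent pairs of mirror digits, or runs through the rearrangements of `k` given digits (none of them at more than
  `(1 - η) k` places).
-/

set_option autoImplicit false

namespace Pool.Agent.Results.MP_61161c_nt.PalindromeNeighbourhoods

open Finset Pool.Agent.H560R3.GB Pool.Agent.R459.Fams

/-- The number of the `p` such that `p` and `p' = m - p` are odd primes, `p < p'` and `p' - p ≤ H`. -/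
def N (m H : ℕ) : ℕ :=
  ((range m).filter (fun p => p.Prime ∧ p ≠ 2 ∧ (m - p).Prime ∧ m - p ≠ 2 ∧ p < m - p ∧ m - p ≤ p + H)).card

/-- For every `H` with `m / log ^ A m ≤ H ≤ m` there are distinct odd primes `p < p'` with `p + p' = m` and
`p' - p ≤ H`, and the number of these pairs is `sing m * H / (2 log ^ 2 m)` up to a relative error of at
most `ε`. -/
def Holds (ε : ℝ) (A m : ℕ) : Prop :=
  ∀ H : ℕ, H ≤ m → (m : ℝ) / Real.log m ^ A ≤ H →
    (∃ p p' : ℕ, p.Prime ∧ p'.Prime ∧ p ≠ 2 ∧ p' ≠ 2 ∧ p < p' ∧ p + p' = m ∧ p' - p ≤ H) ∧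
    |(N m H : ℝ) - sing m * H / (2 * Real.log m ^ 2)| ≤ ε * (sing m * H / (2 * Real.log m ^ 2))

/-- `Holds` for all the even integers `m > 0` at a distance of at most `Q` from `v`. -/
def Near (ε : ℝ) (A Q : ℕ) (v : ℤ) : Prop := ∀ m : ℕ, 0 < m → Even m → |(m : ℤ) - v| ≤ Q → Holds ε A m

/-- Let `b ≥ 2`, `B`, `A`, `W`, `U`, the integer `κ ≠ 0`, `η > 0` and `ε > 0` be fixed, let `k` be large and
`|c| ≤ B b ^ k`. For almost all the palindromes `v` with `k` digits in base `b`, with high probability for random
integers `v` with independent pairs of mirror digits, and for almost all the rearrangements `v` of arbitrary `k` digits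
(the proportion of the exceptions is at most `1 / k ^ U`): ALL the even integers `m > 0` at a distance of at most
`k ^ W` from `c + κ v` are sums of two distinct odd primes `p < p'`, even with `p' - p ≤ H` for every `H` with
`m / log ^ A m ≤ H ≤ m`, and the number of these representations is as predicted, up to a relative error of at most
`ε`. -/
theorem result (b B A W U : ℕ) (hb : 2 ≤ b) (κ : ℤ) (hκ : κ ≠ 0) (η ε : ℝ) (hη : 0 < η) (hε : 0 < ε) :
    ∃ k₀ : ℕ, ∀ k : ℕ, k₀ ≤ k → ∀ c : ℤ, |c| ≤ B * (b : ℤ) ^ k → Digits b k U κ c η (Near ε A (k ^ W)) := by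
  obtain ⟨m₀, hm₀⟩ := MP_61161c_nt.DigitPermutations.holds_of A ε hε
  obtain ⟨k₀, h⟩ := digits_gold b B (A + 1) W U m₀ hb κ hκ η (min ε (1 / 2) / 2) hη
    (div_pos (lt_min hε (by norm_num)) (by norm_num)) (Holds ε A) hm₀
  exact ⟨k₀, fun k hk c hc => (h k hk c hc).mono fun v hv m hm hev hmv => hv m hm hev (by push_cast at hmv; exact hmv)⟩

end Pool.Agent.Results.MP_61161c_nt.PalindromeNeighbourhoods
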