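import Pool.Agent.R459.Quad
import Pool.Agent.Results.MP_61161c_nt.DigitPermutations

/-!
# Sums of two distinct and almost equal odd primes, for all even integers near the values of quadratic polynomials at
integers with restricted digits

Definitions used:
* in `Pool.Agent.H560R3.GB`: `sing m`: the singular series `2 C₂ ∏_{p ∣ m, p > 2} (p - 1) / (p - 2)`, where
  `C₂ = ∏_{p > 2} (1 - 1 / (p - 1) ^ 2)`;
* in `Pool.Agent.TH872.GQ`: `S b D k`: the integers below `b ^ k` whose `i`-th digit in base `b` lies in `D i`, for all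
  `i < k`; `value κ β c n = c + κ n ^ 2 + β n`.
-/

set_option autoImplicit false

namespace Pool.Agent.Results.MP_61161c_nt.QuadraticValues

open Finset Pool.Agent.H560R3.GB Pool.Agent.TH872.GQ

/-- The number of the `p` such that `p` and `p' = m - p` are odd primes, `p < p'` and `p' - p ≤ H`. -/
def N (m H : ℕ) : ℕ :=
  ((range m).filter (fun p => p.Prime ∧ p ≠ 2 ∧ (m - p).Prime ∧ m - p ≠ 2 ∧ p < m - p ∧ m - p ≤ p + H)).card

/-- For every `H` with `m / log ^ A m ≤ H ≤ m` there are distinct odd primes `p < p'` with `p + p' = m` and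
`p' - p ≤ H`, and the number of these pairs is `sing m * H / (2 log ^ 2 m)` up to a relative error of at
most `ε`. -/
def Holds (ε : ℝ) (A m : ℕ) : Prop :=
  ∀ H : ℕ, H ≤ m → (m : ℝ) / Real.log m ^ A ≤ H →
    (∃ p p' : ℕ, p.Prime ∧ p'.Prime ∧ p ≠ 2 ∧ p' ≠ 2 ∧ p < p' ∧ p + p' = m ∧ p' - p ≤ H) ∧
    |(N m H : ℝ) - sing m * H / (2 * Real.log m ^ 2)| ≤ ε * (sing m * H / (2 * Real.log m ^ 2))

/-- `Holds` for all the even integers `m > 0` at a distance of at most `Q` from `b`. -/
def Near (ε : ℝ) (A Q : ℕ) (b : ℤ) : Prop := ∀ m : ℕ, 0 < m → Even m → |(m : ℤ) - b| ≤ Q → Holds ε A m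

open Classical in
/-- Let `b ≥ 2`, integers `κ ≠ 0` and `β`, and `B`, `A`, `W`, `U` and `ε > 0` be fixed, and let `k` be large. Let
`D 0, …, D (k - 1)` be arbitrary sets of at least two digits in base `b`, let `S` be the set of the integers below
`b ^ k` whose `i`-th digit lies in `D i` for all `i < k`, and let `c` be an arbitrary integer with `|c| ≤ B b ^ (2 k)`.
Then all the `n ∈ S`, except for at most `#S / k ^ U` of them, have the following property: ALL the even integers
`m > 0` at a distance of at most `k ^ W` from `c + κ n ^ 2 + β n` are sums of two distinct odd primes `p < p'`, even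
with `p' - p ≤ H` for every `H` with `m / log ^ A m ≤ H ≤ m`, and the number of these representations is as
predicted, up to a relative error of at most `ε`. -/
theorem result (b B A W U : ℕ) (hb : 2 ≤ b) (κ β : ℤ) (hκ : κ ≠ 0) (ε : ℝ) (hε : 0 < ε) :
    ∃ k₀ : ℕ, ∀ k : ℕ, k₀ ≤ k → ∀ D : ℕ → Finset ℕ, (∀ i < k, D i ⊆ range b ∧ 2 ≤ (D i).card) →
      ∀ c : ℤ, |c| ≤ B * (b : ℤ) ^ (2 * k) →
      (((S b D k).filter (fun n => ¬ Near ε A (k ^ W) (value κ β c n))).card : ℝ) ≤
        (S b D k).card / (k : ℝ) ^ U := by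
  obtain ⟨m₀, hm₀⟩ := MP_61161c_nt.DigitPermutations.holds_of A ε hε
  obtain ⟨k₀, h⟩ := Pool.Agent.R459.near_quad b B (A + 1) W U m₀ hb κ β hκ (min ε (1 / 2) / 2)
    (div_pos (lt_min hε (by norm_num)) (by norm_num)) (Holds ε A) hm₀
  refine ⟨k₀, fun k hk D hD c hc => h k hk D hD c hc _ ?_⟩
  intro n hn
  unfold Near at hn
  push Not at hn
  obtain ⟨m, h1, h2, h3, h4⟩ := hn
  exact ⟨m, h1, h2, by push_cast at h3; exact h3, h4⟩

end Pool.Agent.Results.MP_61161c_nt.QuadraticValues
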